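import Pool.Agent.Lib.MP_d610d0_nt.CH.Ifc
import Pool.Agent.Lib.MP_0da313_nt.BV.Hooley

set_option autoImplicit false

/-!
Section S (sieve weights) of the Chen type theorem: definitions.
-/

namespace Pool.Agent.CH.S

open Finset

/-- The primes in `[a, w)`. -/
def Pr (a w : ℕ) : Finset ℕ := (range w).filter (fun p => p.Prime ∧ a ≤ p)

/-- The odd primes `≤ X`. -/
def OP (X : ℕ) : Finset ℕ := (range (X + 1)).filter (fun p => p.Prime ∧ 2 < p)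

/-- The density `1 / (p - 1)`. -/
noncomputable def gd (p : ℕ) : ℝ := 1 / ((p : ℝ) - 1)

/-- `V(a, w) = ∏_{a ≤ p < w} (1 - 1/(p-1))`. -/
noncomputable def V (a w : ℕ) : ℝ := ∏ p ∈ Pr a w, (1 - gd p)

open Classical in
/-- The linear sieve functions of the variables `ρ p`, `p` prime in `[a, w)`; `true` is the upper
bound sieve, `false` the lower bound sieve, `D` the level. -/
noncomputable def th (a : ℕ) (ρ : ℕ → ℝ) : ℕ → Bool → ℝ → ℝ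
  | 0 => fun _ _ => 1
  | (w + 1) => fun b D => th a ρ w b D -
      (if w.Prime ∧ a ≤ w ∧ (b = true → (w : ℝ) ^ 3 < D) then ρ w * th a ρ w (!b) (D / w) else 0)

/-- Explicit supersolution of the linear sieve equations, with slack `1/200`. -/
structure SS (u l U L : ℝ → ℝ) (K : ℝ) : Prop where
  u_anti : ∀ x y, 1 ≤ x → x ≤ y → u y ≤ u x
  l_anti : ∀ x y, 2 ≤ x → x ≤ y → l y ≤ l x
  u_pos : ∀ x, 1 ≤ x → 0 < u x
  l_pos : ∀ x, 2 ≤ x → 0 < l x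
  U_int : ∀ x y, 1 ≤ x → x ≤ y → (y - x) * u y ≤ U x - U y
  L_int : ∀ x y, 2 ≤ x → x ≤ y → (y - x) * l y ≤ L x - L y
  U_nn : ∀ x, 1 ≤ x → 0 ≤ U x
  L_nn : ∀ x, 2 ≤ x → 0 ≤ L x
  low : ∀ s, 2 ≤ s → (1 + 1 / 200) * U (s - 1) ≤ s * l s
  up : ∀ s, 3 ≤ s → (1 + 1 / 200) * L (s - 1) ≤ s * u s
  mid : ∀ s, 1 ≤ s → s < 3 → K / s ≤ 1 + u s
  K3 : 3 * (1 + 1 / 200) * (1 + u 3) ≤ K

/-- Mertens' estimate with error `ε` from `a` on. -/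
def Mer (ε : ℝ) (a : ℕ) : Prop := ∀ n : ℕ, a ≤ n → ∀ w : ℝ, (n : ℝ) ≤ w →
  Real.log n ≤ (1 + ε) * V n ⌈w⌉₊ * Real.log w

/-- `ε` is small with respect to the supersolution on `s ≤ S`. -/
structure Sm (u l U L : ℝ → ℝ) (S ε : ℝ) : Prop where
  pos : 0 < ε
  le : ε ≤ 1 / 200
  e1 : ∀ s, 2 ≤ s → s ≤ S → (1 + ε) * (1 / s) * U (s - 1) + ε * u (s - 1) ≤ l s
  e2 : ∀ s, 3 ≤ s → s ≤ S → (1 + ε) * (1 / s) * L (s - 1) + ε * l (s - 1) ≤ u s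

/-- The upper bound claim at `(D, w)`. -/
def UpC (u : ℝ → ℝ) (a : ℕ) (w D : ℝ) : Prop :=
  th a gd ⌈w⌉₊ true D ≤ V a ⌈w⌉₊ * (1 + u (Real.log D / Real.log w))

/-- The lower bound claim at `(D, w)`. -/
def LoC (l : ℝ → ℝ) (a : ℕ) (w D : ℝ) : Prop :=
  V a ⌈w⌉₊ * (1 - l (Real.log D / Real.log w)) ≤ th a gd ⌈w⌉₊ false D

/-- `F` is a combination of the products `∏ p ∈ T, ρ p`, `T ⊆ P`, with coefficients of absolute
value at most three which vanish unless `Q T`. -/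
def RepC (P : Finset ℕ) (Q : Finset ℕ → Prop) (F : (ℕ → ℝ) → ℝ) : Prop :=
  ∃ c : Finset ℕ → ℝ, (∀ ρ, F ρ = ∑ T ∈ P.powerset, c T * ∏ p ∈ T, ρ p) ∧
    (∀ T, |c T| ≤ 3) ∧ ∀ T ∈ P.powerset, c T ≠ 0 → Q T

end Pool.Agent.CH.S
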