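import Pool.Agent.Lib.MP_d610d0_nt.CH.S.P.ss
import Pool.Agent.Lib.MP_d610d0_nt.CH.S.P.pt
import Pool.Agent.Lib.MP_d610d0_nt.CH.S.P.rep
import Pool.Agent.Lib.MP_d610d0_nt.CH.S.P.exp
import Pool.Agent.Lib.MP_d610d0_nt.CH.S.P.tel
import Pool.Agent.Lib.MP_d610d0_nt.CH.S.P.abel
import Pool.Agent.Lib.MP_d610d0_nt.CH.S.P.ps
import Pool.Agent.Lib.MP_d610d0_nt.CH.S.P.mer
import Pool.Agent.Lib.MP_d610d0_nt.CH.S.P.eps
import Pool.Agent.Lib.MP_d610d0_nt.CH.S.P.stL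
import Pool.Agent.Lib.MP_d610d0_nt.CH.S.P.stU3
import Pool.Agent.Lib.MP_d610d0_nt.CH.S.P.stU1
import Pool.Agent.Lib.MP_d610d0_nt.CH.S.P.ls
import Pool.Agent.Lib.MP_d610d0_nt.CH.S.P.fl
import Pool.Agent.Lib.MP_d610d0_nt.CH.S.P.conv
import Pool.Agent.Lib.MP_d610d0_nt.CH.S.P.comp
import Pool.Agent.Lib.MP_d610d0_nt.CH.S.P.par
import Pool.Agent.Lib.MP_d610d0_nt.CH.S.P.fin

set_option autoImplicit false

/-!
Section S (sieve weights): the assembly.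
-/

namespace Pool.Agent.CH.S

/-- The sieve weights of level `J ^ (999/1000)`. -/
theorem p_S : I_S := by
  have hps : S_ps := p_ps p_abel p_tel
  have hstL : S_stL := p_stL hps p_exp p_tel
  have hstU3 : S_stU3 := p_stU3 hps p_exp p_tel
  have hstU1 : S_stU1 := p_stU1 p_exp p_tel
  have hls : S_ls := p_ls p_eps hstL hstU3 hstU1
  exact p_fin p_pt p_rep p_tel p_mer p_ss hls p_fl p_conv p_comp p_par

end Pool.Agent.CH.S
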