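import Pool.Agent.Lib.MP_d610d0_nt.CH.S.Defs

set_option autoImplicit false

/-!
Section S (sieve weights) of the Chen type theorem: the statements of the pieces with complete
informal proofs. Notation: `g p = gd p = 1/(p-1)`, `V a w = ∏_{a ≤ p < w} (1 - g p)`, `m = ⌈w⌉₊` for
a real `w` (the primes `p < w` are the primes `p < m`, since `(p : ℝ) < w ↔ p < ⌈w⌉₊`,
`Nat.lt_ceil`), `s = log D / log w`.
-/

namespace Pool.Agent.CH.S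

open Finset
open Pool.Agent.BVall (RepB)

/-- [CS pt] Pointwise sieve inequalities.
Proof. Induction on `w`, both inequalities together, for all `D`. Put `W w = ∏ p ∈ Pr a w, (1 - ρ p)`,
`0 ≤ W w`. `W (w+1) = W w - (if w.Prime ∧ a ≤ w then ρ w * W w else 0)` (`Pr a (w+1)` is
`insert w (Pr a w)` if `w.Prime ∧ a ≤ w`, else `Pr a w`). If `w` is a prime `≥ a`:
`th false D (w+1) = th false D w - ρ w * th true (D/w) w ≤ W w - ρ w * W w` (lower bound for the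
recursive term), and `th true D (w+1) = th true D w - [w^3 < D] ρ w * th false (D/w) w
≥ W w - ρ w * W w` (if `w^3 < D` use `th false (D/w) w ≤ W w`, otherwise `0 ≤ ρ w * W w`). -/
def S_pt : Prop := ∀ (a : ℕ) (ρ : ℕ → ℝ) (w : ℕ) (D : ℝ),
  (∀ p ∈ Pr a w, 0 ≤ ρ p ∧ ρ p ≤ 1) →
  th a ρ w false D ≤ ∏ p ∈ Pr a w, (1 - ρ p) ∧ ∏ p ∈ Pr a w, (1 - ρ p) ≤ th a ρ w true D

/-- [CS rep] The sieve functions are combinations of products with coefficients of absolute value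
at most one, supported on `∏ p ∈ T, p < D`.
Proof. Induction on `w` for all `b, D`. First the existence of the coefficients without the support
condition is not enough, so prove the statement as it is. `w = 0`: `Pr a 0 = ∅`, coefficient `1` at
`∅`, `1 < D`. Step: if `w` is not a prime `≥ a` (or `b = true` and `w^3 < D` fails) then
`th (w+1) b D = th w b D` and one extends the coefficients by zero from `Pr a w` to `Pr a (w+1)`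
(for `T` containing `w` put `0`). Otherwise `Pr a (w+1) = insert w (Pr a w)`, `w ∉ Pr a w`, and with
the coefficients `c` of `th w b D` and `c'` of `th w (!b) (D/w)` put `C T = c T` if `w ∉ T`,
`C T = -c' (T.erase w)` if `w ∈ T` (`Finset.sum_powerset_insert`). The hypotheses for the recursive
terms: for `b = true`: `w^3 < D`, so `1 ≤ w^2 < D/w`, `1 < D/w` and `w ≤ w^2 ≤ D/w` (`w ≥ 2`), which is
what is needed for `th w false (D/w)`. For `b = false`: `w + 1 ≤ D` (hypothesis at `w+1`), so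
`1 < D/w`, which is all that is needed for `th w true (D/w)`; and `w ≤ D` for `th w false D`. Support:
`w ∈ T`, `C T ≠ 0`: `∏ p ∈ T.erase w, p < D/w`, so `∏ p ∈ T, p = w * ∏ p ∈ T.erase w, p < D`. -/
def S_rep : Prop := ∀ (a w : ℕ) (b : Bool) (D : ℝ), 1 < D → (b = false → (w : ℝ) ≤ D) →
  RepB (Pr a w) (fun T => ∏ p ∈ T, (p : ℝ) < D) (fun ρ => th a ρ w b D)

open Classical in
/-- [CS exp] Expansion of the recursion.
Proof. Induction on `w` (`Finset.sum_filter`, `Pr a (w+1)` is `insert w (Pr a w)` or `Pr a w`). -/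
def S_exp : Prop := ∀ (a : ℕ) (ρ : ℕ → ℝ) (w : ℕ) (b : Bool) (D : ℝ),
  th a ρ w b D = 1 - ∑ p ∈ Pr a w,
    (if (b = true → (p : ℝ) ^ 3 < D) then ρ p * th a ρ p (!b) (D / p) else 0)

/-- [CS tel] Elementary facts on `V`.
Proof. (1) For a prime `p ≥ 3`, `0 < 1 - 1/(p-1) ≤ 1`. (2) `Pr a m` is the disjoint union of `Pr a n`
and `Pr n m`. (3) Induction on `w`. (4) `∑ g(p) V a p = ∑ (V a n - V a (n+1))` over `n < w`, induction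
on `w`: `V a (w+1) = V a w * (1 - g w)` if `w` is a prime `≥ a`, else `V a w`. (5) `OP X` and
`Pr (X+1) ⌈z⌉₊` are disjoint with union the index set of `VV z`. -/
def S_tel : Prop := ∀ a : ℕ, 3 ≤ a →
  (∀ w, 0 < V a w ∧ V a w ≤ 1) ∧
  (∀ n m, a ≤ n → n ≤ m → V a m = V a n * V n m) ∧
  (∀ n, V a (n + 1) = V a n - (if n.Prime ∧ a ≤ n then gd n * V a n else 0)) ∧
  (∀ w, ∑ p ∈ Pr a w, gd p * V a p = 1 - V a w) ∧
  (∀ (X : ℕ) (z : ℝ), 2 ≤ X → (X : ℝ) + 1 ≤ z →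
    VV z = (∏ p ∈ OP X, (1 - gd p)) * V (X + 1) ⌈z⌉₊)

/-- [CS abel] Comparison by partial summation.
Proof. `E n = Us n - Vs n ≥ 0`. Claim for `a < m`:
`0 ≤ ∑ n ∈ Ico a m, (E n - E (n+1)) * f n + E m * f (m-1)`. Induction on `m` from `a + 1`:
`(E a - E (a+1)) * f a + E (a+1) * f a = E a * f a ≥ 0`; step: the expression at `m+1` is the one at `m`
plus `E m * (f m - f (m-1)) ≥ 0`. Then replace `f (m-1)` by `F`. The case `a = m` is trivial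
(`0 ≤ E m * F`). -/
def S_abel : Prop := ∀ (a m : ℕ) (Vs Us f : ℕ → ℝ) (F : ℝ), a ≤ m →
  (∀ n, a ≤ n → n ≤ m → Vs n ≤ Us n) →
  (∀ n, a ≤ n → n + 1 < m → f n ≤ f (n + 1)) →
  (∀ n, a ≤ n → n < m → 0 ≤ f n) → (∀ n, a ≤ n → n < m → f n ≤ F) → 0 ≤ F →
  ∑ n ∈ Ico a m, (Vs n - Vs (n + 1)) * f n
    ≤ ∑ n ∈ Ico a m, (Us n - Us (n + 1)) * f n + (Us m - Vs m) * F

/-- [CS ps] Partial summation with a monotone function.
Proof. `m = ⌈w⌉₊`, `s = log D / log w ≥ 1`. By S_tel (third part) the left side is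
`∑ n ∈ Ico a m, (V a n - V a (n+1)) * φ (t n - 1)`, `t n = log D / log n`, and for `a ≤ n < m` one has
`n < w` (`Nat.lt_ceil`), `1 < n`, `t n ≥ s`, `t` is antitone, so `f n = φ (t n - 1)` is monotone,
nonnegative and `≤ F = φ (s - 1)`. Apply S_abel with `Vs n = V a n` and
`Us n = (1+ε) * V a m * (log w / log n)` for `n < m`, `Us m = (1+ε) * V a m`. `Vs n ≤ Us n` for `n < m`:
`V a m = V a n * V n m` (S_tel) and `log n ≤ (1+ε) * V n m * log w` (Mer), multiply by `V a n / log n`;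
for `n = m`: `ε ≥ 0`. `Us m - Vs m = ε * V a m`. With `T n = t n` for `n < m`, `T m = s` one has
`Us n = (1+ε) * V a m * (1/s) * T n`, (as `log w / log n = t n / s`) and
`(T n - T (n+1)) * φ (T n - 1) ≤ I (T (n+1) - 1) - I (T n - 1)` (hypothesis on `I` with
`x = T (n+1) - 1 ≤ y = T n - 1`), the sum telescopes to `I (s-1) - I (t a - 1) ≤ I (s-1)` (if `a < m`;
for `a = m` the sum is empty and the right side is nonnegative). -/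
def S_ps : Prop := ∀ (a : ℕ) (w D ε : ℝ) (φ I : ℝ → ℝ), 3 ≤ a → (a : ℝ) ≤ w → w ≤ D → 0 ≤ ε →
  Mer ε a →
  (∀ x y, Real.log D / Real.log w - 1 ≤ x → x ≤ y → φ y ≤ φ x) →
  (∀ x, Real.log D / Real.log w - 1 ≤ x → 0 ≤ φ x) →
  (∀ x y, Real.log D / Real.log w - 1 ≤ x → x ≤ y → (y - x) * φ y ≤ I x - I y) →
  (∀ x, Real.log D / Real.log w - 1 ≤ x → 0 ≤ I x) →
  ∑ p ∈ Pr a ⌈w⌉₊, gd p * V a p * φ (Real.log D / Real.log p - 1)
    ≤ V a ⌈w⌉₊ * ((1 + ε) * (1 / (Real.log D / Real.log w)) * I (Real.log D / Real.log w - 1)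
      + ε * φ (Real.log D / Real.log w - 1))

/-- [CS mer] Mertens' product estimate.
Proof. Let `n ≥ a0` (large), `w ≥ n`, `m = ⌈w⌉₊`. For `p ≥ n ≥ 4`:
`-log (1 - 1/(p-1)) = log (1 + 1/(p-2)) ≤ 1/(p-2) = 1/(p-1) + 1/((p-1)(p-2))`, and
`∑_{p ≥ n} 1/((p-1)(p-2)) ≤ 1/(n-2)` (telescoping over integers). So
`-log V n m ≤ ∑_{n ≤ p < m} 1/(p-1) + 1/(n-2)`. With `A k = Asum k = ∑_{p ≤ k} log p/(p-1)`
(`Pool.Agent.Lib.MP_d610d0_nt.Asum`, file Mert.lean; `Asum_lower : log (k+1) - 1 ≤ Asum k`,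
`Asum_upper (4000 ≤ k) : Asum k ≤ log k + 0.12 + 0.108`, file Mert2.lean), for `n ≥ 4001`:
`∑_{n ≤ p < m} 1/(p-1) = ∑_{k=n}^{m-1} (A k - A (k-1)) / log k`. Compare with `log` by partial
summation (Abel; `f k = 1 / log k` is decreasing, `|A k - log k| ≤ 1`):
`≤ ∑_{k=n}^{m-1} (log k - log (k-1)) / log k + 3 / log n`, and
`(log k - log (k-1)) / log k ≤ log (log k) - log (log (k-1))` (`1 - y ≤ -log y`, `y = log (k-1) / log k`),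
so the sum is `≤ log (log (m-1)) - log (log (n-1))`, and `m - 1 < w`. Altogether for `m > n`
`-log V n m ≤ log (log w) - log (log n) + δ n`,
`δ n = log (log n) - log (log (n-1)) + 3 / log n + 1/(n-2)`, and `δ n → 0`
(`log (log n / log (n-1)) ≤ (log n - log (n-1)) / log (n-1) ≤ 1/(n-1)`), so `exp (δ n) ≤ 1 + ε` for
`n ≥ a0`. For `m = n` (that is `w = n`, or nothing between) `V n m = 1` and `log n ≤ log w`. -/
def S_mer : Prop := ∀ ε : ℝ, 0 < ε → ∃ a0 : ℕ, 3 ≤ a0 ∧ ∀ a : ℕ, a0 ≤ a → Mer ε a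

/-- [CS ss] Existence of the supersolution (numerics; done by helper24). -/
def S_ss : Prop := ∃ (u l U L : ℝ → ℝ) (K : ℝ), SS u l U L K ∧
  1 + u 2.66 ≤ 1.379 ∧ 0.64 ≤ 1 - l 2.66

/-- [CS eps] Small `ε`.
Proof. `δ = min (l S) (u S) > 0`, `B = max (u 1) (l 2) > 0`, `ε = min (1/400) (δ / (402 * B))`. For
`2 ≤ s ≤ S`: `U (s-1) ≤ s * l s / (1 + 1/200)`, so
`(1+ε) * (1/s) * U (s-1) ≤ (1+1/400)/(1+1/200) * l s = (401/402) * l s`, and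
`ε * u (s-1) ≤ ε * B ≤ δ/402 ≤ l s / 402` (`l S ≤ l s`). The same for `u s`, `3 ≤ s ≤ S`, with
`L (s-1)`, `l (s-1) ≤ l 2`. -/
def S_eps : Prop := ∀ (u l U L : ℝ → ℝ) (K : ℝ), SS u l U L K → ∀ S : ℝ, 3 ≤ S →
  ∃ ε : ℝ, Sm u l U L S ε

/-- [CS stL] The lower bound from the upper bounds for smaller primes (`hyp` = S_ps, S_exp, S_tel).
Proof. `m = ⌈w⌉₊`, `s = log D / log w ≥ 2`, and `s ≤ S` as `log D ≤ S * log a ≤ S * log w`. By S_exp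
(`b = false`) `th a gd m false D = 1 - ∑ p ∈ Pr a m, g p * th a gd p true (D/p)`. For `p ∈ Pr a m`:
`p < w`, and `UpC u a p (D/p)` says (`⌈(p:ℝ)⌉₊ = p`, `log (D/p) / log p = log D / log p - 1`)
`th a gd p true (D/p) ≤ V a p * (1 + u (log D / log p - 1))`. So
`th ≥ 1 - ∑ g p V a p - ∑ g p V a p u (log D / log p - 1)`, the first two terms are `V a m` (S_tel), the last
sum is `≤ V a m * ((1+ε) * (1/s) * U (s-1) + ε * u (s-1)) ≤ V a m * l s` by S_ps (`φ = u`, `I = U`;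
`s - 1 ≥ 1`) and `Sm.e1`. -/
def S_stL : Prop := ∀ (u l U L : ℝ → ℝ) (K : ℝ), SS u l U L K → ∀ (S ε : ℝ), Sm u l U L S ε →
  ∀ (a : ℕ) (w D : ℝ), 3 ≤ a → Mer ε a → (a : ℝ) ≤ w → w ^ 2 ≤ D → Real.log D ≤ S * Real.log a →
  (∀ p : ℕ, p.Prime → a ≤ p → (p : ℝ) < w → UpC u a p (D / p)) → LoC l a w D

/-- [CS stU3] The upper bound for `s ≥ 3` from the lower bounds for smaller primes
(`hyp` = S_ps, S_exp, S_tel).
Proof. As S_stL: `m = ⌈w⌉₊`, `3 ≤ s ≤ S`. By S_exp (`b = true`; for `p ∈ Pr a m` one has `p < w`, so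
`p^3 < w^3 ≤ D` and the condition holds) `th a gd m true D = 1 - ∑ g p * th a gd p false (D/p)
≤ 1 - ∑ g p V a p (1 - l (log D / log p - 1)) = V a m + ∑ g p V a p l (log D / log p - 1)
≤ V a m * (1 + (1+ε) * (1/s) * L (s-1) + ε * l (s-1)) ≤ V a m * (1 + u s)` (S_ps with `φ = l`, `I = L`,
`s - 1 ≥ 2`, and `Sm.e2`). -/
def S_stU3 : Prop := ∀ (u l U L : ℝ → ℝ) (K : ℝ), SS u l U L K → ∀ (S ε : ℝ), Sm u l U L S ε →
  ∀ (a : ℕ) (w D : ℝ), 3 ≤ a → Mer ε a → (a : ℝ) ≤ w → w ^ 3 ≤ D → Real.log D ≤ S * Real.log a →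
  (∀ p : ℕ, p.Prime → a ≤ p → (p : ℝ) < w → LoC l a p (D / p)) → UpC u a w D

/-- [CS stU1] The upper bound for `1 ≤ s < 3` (`hyp` = S_exp, S_tel).
Proof. `m = ⌈w⌉₊`, `s = log D / log w`, `1 ≤ s < 3`, so `K / s ≤ 1 + u s` (`SS.mid`), and `0 < K`.
Case `D ≤ a^3`. No `p ∈ Pr a m` satisfies `p^3 < D`, so `th a gd m true D = 1` (S_exp). `Mer` with
`n = a`: `log a ≤ (1+ε) * V a m * log w`. Hence
`V a m * (1 + u s) ≥ V a m * K * log w / log D ≥ V a m * K * log w / (3 * log a) ≥ K / (3 * (1+ε)) ≥ 1`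
(`SS.K3`, `ε ≤ 1/200`, `u 3 > 0`).
Case `a^3 < D`. `w' = D ^ (1/3 : ℝ)`, `w'^3 = D`, `a < w' < w` (as `D < w^3`), `m' = ⌈w'⌉₊ ≤ m`. For a
natural `p`: `p^3 < D ↔ p < w' ↔ p < m'`. So by S_exp `th a gd m true D = th a gd m' true D` (the terms
with `p^3 ≥ D` vanish). By hypothesis `UpC u a w' D`, and `log D / log w' = 3`:
`th ≤ V a m' * (1 + u 3)`. Next `V a m' * log w' ≤ (1+ε) * V a m * log w`: if `m' ≤ w` use `Mer` with
`n = m'` (`log w' ≤ log m'`, `V a m = V a m' * V m' m`), if `w < m'` then `m = m'` and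
`log w' ≤ log w`. As `log w / log w' = 3 / s`:
`V a m' * (1 + u 3) ≤ (1+ε) * (3/s) * (1 + u 3) * V a m ≤ V a m * K / s ≤ V a m * (1 + u s)`. -/
def S_stU1 : Prop := ∀ (u l U L : ℝ → ℝ) (K : ℝ), SS u l U L K → ∀ (S ε : ℝ), Sm u l U L S ε →
  ∀ (a : ℕ) (w D : ℝ), 3 ≤ a → Mer ε a → (a : ℝ) ≤ w → w ≤ D → D < w ^ 3 →
  (∀ w' : ℝ, (a : ℝ) ≤ w' → w' ≤ w → w' ^ 3 = D → UpC u a w' D) → UpC u a w D

/-- [CS ls] The linear sieve (`hyp` = S_eps, S_stL, S_stU3, S_stU1).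
Proof. `ε` from S_eps. Strong induction on `m`: for all real `w` with `⌈w⌉₊ = m`, `a ≤ w ≤ D`,
`log D ≤ S * log a` both claims hold. Lower claim (`w^2 ≤ D`): S_stL; its hypothesis for a prime
`p < w`, `a ≤ p`, level `D/p`: `⌈(p:ℝ)⌉₊ = p < m`, `p ≤ D/p` (as `p^2 < w^2 ≤ D`),
`log (D/p) ≤ log D ≤ S * log a`, so the induction hypothesis gives the upper claim at `(p, D/p)`.
Upper claim for every `w'` with `a ≤ w' ≤ w` and `w'^3 ≤ D`: S_stU3; hypothesis for a prime `p < w'`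
(`⌈(p:ℝ)⌉₊ = p < ⌈w'⌉₊ ≤ m`), level `D/p`: `p^2 ≤ D/p` as `p^3 < w'^3 ≤ D`, so the induction hypothesis
gives the lower claim at `(p, D/p)`. If `w^3 ≤ D` take `w' = w`. Otherwise `D < w^3`: S_stU1, whose
hypothesis (`w'^3 = D`) is the case just proved. -/
def S_ls : Prop := ∀ (u l U L : ℝ → ℝ) (K : ℝ), SS u l U L K → ∀ S : ℝ, 3 ≤ S →
  ∃ ε : ℝ, 0 < ε ∧ ∀ a : ℕ, 3 ≤ a → Mer ε a → ∀ D w : ℝ, (a : ℝ) ≤ w → w ≤ D →
    Real.log D ≤ S * Real.log a → UpC u a w D ∧ (w ^ 2 ≤ D → LoC l a w D)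

/-- [CS fl] The fundamental lemma (Brun-Hooley), for the odd primes up to `X = 2^(2^m)`.
Proof. Library: `Lib/MP_0da313_nt/{Combi,Recur,Sieve}.lean` (namespace
`Pool.Agent.Lib.MP_0da313_nt`: `E, U, W, PP, YY, FF, pointwise, FF_lower, small, blk, disj, W_lower`)
and `Lib/MP_0da313_nt/BV/Hooley.lean` (namespace `Pool.Agent.BVall`: `RepB, repB_YY, repB_FF, Supp, bb,
bb_even, Dens, Dens.ratio, Dens.W_blk`). Put `n = m - 2`, `B i = blk (2 + i)` (the primes in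
`(2^(2^(2+i)), 2^(2^(3+i))]`), `B0 = (small 2).erase 2` (the odd primes `≤ 16`), `b = bb 2 (n+3)`, so
`b i = 16 + 2 (n + 2 - i)`; `PP B0 B n = OP (2^(2^m))` (copy of `mem_PP_iff` with `p = 2` removed).
`Fp ρ = YY B0 B b ρ n`, `Fm ρ = FF B0 B b ρ n`. Pointwise: `pointwise` (`W ρ P = ∏ (1 - ρ p)`). Main
terms: the density `ρ p = if p = 2 then 0 else if p.Prime then 1/(p-1) else 0` satisfies `Dens 2`
(`1/(p-1) ≤ 2/p`, `1/(p-1) ≤ 1 - 1/p` for `p ≥ 3`), agrees with `gd` on `PP B0 B n` (so `W, YY, FF` agree: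
they only use the values on `B0` and the `B i`; prove a small congruence lemma by induction on `n`, or
apply the lemmas directly to `gd` with the bounds transported), and `Dens.ratio (n := n+3)` gives
`E ρ (B i) (b i + 1) / W ρ (B i) ≤ (1/4) (1/16)^(n+2-i)`, whose sum over `i < n` is
`≤ (4/15) (1/16)^3 ≤ 1/10000`. So `FF ≥ YY (1 - 1/10000) ≥ W (1 - 1/10000)` (`FF_lower`, `pointwise`)
and, as in the proof of `Dens.YK_upper`,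
`YY ≤ W ∏ (1 + ratio_i) ≤ W exp (1/10000) ≤ W (1 + 1/1000)`.
Support: `Supp B b n T`, `T ⊆ PP`: `∏ p ∈ T, p ≤ (∏ p ∈ small 2, p) * ∏_{i<n} (2^(2^(3+i)))^(b i + 1)` and
`∑_{i<n} 2^(3+i) (17 + 2 (n+2-i)) ≤ 50 * 2^(n+2)` (induction on `n`, in the form
`∑_{i<n} 2^(3+i) (17 + 2 (n+2-i)) + (something) `; with `j = n-1-i` it is
`2^(n+2) ∑_{j<n} (23 + 2j) 2^(-j) ≤ 2^(n+2) (46 + 4)`), i.e. `C0 = ∏ p ∈ small 2, p`. -/
def S_fl : Prop := ∃ C0 : ℝ, ∀ m : ℕ, 2 ≤ m → ∃ Fp Fm : (ℕ → ℝ) → ℝ,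
  RepB (OP (2 ^ 2 ^ m)) (fun T => ∏ p ∈ T, (p : ℝ) ≤ C0 * ((2 : ℝ) ^ 2 ^ m) ^ 50) Fp ∧
  RepB (OP (2 ^ 2 ^ m)) (fun T => ∏ p ∈ T, (p : ℝ) ≤ C0 * ((2 : ℝ) ^ 2 ^ m) ^ 50) Fm ∧
  (∀ ρ : ℕ → ℝ, (∀ p ∈ OP (2 ^ 2 ^ m), 0 ≤ ρ p ∧ ρ p ≤ 1) →
    Fm ρ ≤ ∏ p ∈ OP (2 ^ 2 ^ m), (1 - ρ p) ∧ ∏ p ∈ OP (2 ^ 2 ^ m), (1 - ρ p) ≤ Fp ρ) ∧
  Fp gd ≤ (1 + 1 / 1000) * ∏ p ∈ OP (2 ^ 2 ^ m), (1 - gd p) ∧
  (1 - 1 / 1000) * ∏ p ∈ OP (2 ^ 2 ^ m), (1 - gd p) ≤ Fm gd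

/-- [CS conv] From combinations over sets of primes to coefficients on integers.
Proof. `c d = if Squarefree d ∧ d.primeFactors ⊆ P then c0 d.primeFactors else 0` with the given
coefficients `c0`. For squarefree `d`, `∏ p ∈ d.primeFactors, p = d` (`Nat.prod_primeFactors_of_squarefree`);
`T ↦ ∏ p ∈ T, p` is a bijection of `P.powerset` onto the squarefree `d` with `d.primeFactors ⊆ P`
(`Nat.primeFactors_prod`). Wt: odd since `2 ∉ P`; `le` from the support condition; `small`, `bd` clear.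
`dsum c n = ∑_{d ∣ n} c d = ∑_{T ⊆ P, ∏ T ∣ n} c0 T = ∑_{T ⊆ P} c0 T ∏_{p ∈ T} [p ∣ n]` (`∏ T ∣ n` iff all
`p ∈ T` divide `n`, distinct primes: `Finset.prod_primes_dvd`, `Nat.Coprime`). Last claim: every `d` with
`c d ≠ 0` satisfies `1 ≤ d ≤ Q ≤ N`, and `1/φ(d) = ∏_{p ∣ d} 1/(p-1)` for squarefree `d`
(`Nat.totient_mul..`, or `Nat.totient_eq_prod..`, multiplicativity by induction on `T`). -/
def S_conv : Prop := ∀ (z Q : ℝ) (P : Finset ℕ) (F : (ℕ → ℝ) → ℝ),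
  (∀ p ∈ P, p.Prime ∧ 2 < p ∧ (p : ℝ) < z) → RepC P (fun T => ∏ p ∈ T, (p : ℝ) ≤ Q) F →
  ∃ c : ℕ → ℝ, Wt z Q c ∧
    (∀ n : ℕ, n ≠ 0 → dsum c n = F (fun p => if p ∣ n then 1 else 0)) ∧
    (∀ N : ℕ, Q ≤ N → ∑ d ∈ Icc 1 N, c d / (Nat.totient d : ℝ) = F gd)

/-- [CS comp] Composition of two sieves over disjoint sets of primes.
Proof. `RepB.mul` (BV/Hooley.lean) for the four products; `∏ p ∈ T, p = ∏ p ∈ T ∩ P0, p * ∏ p ∈ T ∩ P1, p`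
for `T ⊆ P0 ∪ P1` (disjoint), and both factors are `≤ Q0`, `≤ Q1` (nonnegative). For the sum of three
functions add the coefficients (`|c1 + c2 - c3| ≤ 3`; if all three vanish the sum vanishes). -/
def S_comp : Prop := ∀ (P0 P1 : Finset ℕ) (Q0 Q1 : ℝ) (Ap Am Bp Bm : (ℕ → ℝ) → ℝ),
  Disjoint P0 P1 →
  RepB P0 (fun T => ∏ p ∈ T, (p : ℝ) ≤ Q0) Ap → RepB P0 (fun T => ∏ p ∈ T, (p : ℝ) ≤ Q0) Am →
  RepB P1 (fun T => ∏ p ∈ T, (p : ℝ) ≤ Q1) Bp → RepB P1 (fun T => ∏ p ∈ T, (p : ℝ) ≤ Q1) Bm →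
  RepC (P0 ∪ P1) (fun T => ∏ p ∈ T, (p : ℝ) ≤ Q0 * Q1) (fun ρ => Ap ρ * Bp ρ) ∧
  RepC (P0 ∪ P1) (fun T => ∏ p ∈ T, (p : ℝ) ≤ Q0 * Q1)
    (fun ρ => Ap ρ * Bm ρ + Am ρ * Bp ρ - Ap ρ * Bp ρ)

/-- [CS par] Choice of the parameters. `X = 2^(2^m)` is about a very small power of `J`.
Proof. For `J` large let `m` be maximal with `(2:ℝ)^(2^m) ≤ J^(1/102000)`; then
`(2^(2^m))^2 = 2^(2^(m+1)) > J^(1/102000)`, so `log J ≤ 204000 * log X`. `X → ∞` as `J → ∞`, so `m ≥ 2`,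
`C0 ≤ X`, and `C0 * X^50 ≤ X^51 ≤ J^(51/102000) = J^(0.0005)`; `X + 1 ≥ a0`. `w = zJ J = (3J)^(3/8)`,
`D = J^(0.9985)`: `X + 1 ≤ w` for large `J`; `w^2 = (3J)^(3/4) ≤ D`; `log D ≤ log J ≤ 204000 log (X+1)`;
`log D / log w = 0.9985 log J / (0.375 (log 3 + log J)) → 2.6626..`, so it is `≥ 2.66` for large `J`;
`J^0.0005 * J^0.9985 = J^0.999`. -/
def S_par : Prop := ∀ (C0 : ℝ) (a0 : ℕ), ∃ J0 : ℕ, ∀ J : ℕ, J0 ≤ J → ∃ m : ℕ, 2 ≤ m ∧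
  a0 ≤ 2 ^ 2 ^ m + 1 ∧ C0 * ((2 : ℝ) ^ 2 ^ m) ^ 50 ≤ (J : ℝ) ^ (0.0005 : ℝ) ∧
  ((2 ^ 2 ^ m + 1 : ℕ) : ℝ) ≤ zJ J ∧ zJ J ^ 2 ≤ (J : ℝ) ^ (0.9985 : ℝ) ∧
  zJ J ≤ (J : ℝ) ^ (0.9985 : ℝ) ∧ 1 < (J : ℝ) ^ (0.9985 : ℝ) ∧
  Real.log ((J : ℝ) ^ (0.9985 : ℝ)) ≤ 204000 * Real.log ((2 ^ 2 ^ m + 1 : ℕ) : ℝ) ∧
  2.66 ≤ Real.log ((J : ℝ) ^ (0.9985 : ℝ)) / Real.log (zJ J) ∧
  (J : ℝ) ^ (0.0005 : ℝ) * (J : ℝ) ^ (0.9985 : ℝ) = (J : ℝ) ^ (999 / 1000 : ℝ) ∧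
  (J : ℝ) ^ (999 / 1000 : ℝ) ≤ J

/-- [CS fin] Assembly of section S.
Proof. `u, l, U, L, K` from S_ss, `S = 204000`, `ε` from S_ls, `a0` from S_mer, `C0` from S_fl (enlarge
to `max C0 0`, the support condition becomes weaker: `RepB.mono`), `J0, m` from S_par; `X = 2^(2^m)`,
`a = X + 1`, `w = zJ J`, `D = J^0.9985`, `k = ⌈w⌉₊`, `P0 = OP X`, `P1 = Pr a k`, `Fp, Fm` from S_fl. By S_rep
`th a · k true D`, `th a · k false D` are RepB over `P1` with `∏ < D` (hence `≤ D`; for `false` one needs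
`k ≤ D`: `k < w + 1 ≤ D`, as `w + 1 ≤ w^2 ≤ D`, `w ≥ 2`). S_comp and S_conv (with `z = zJ J`, `Q = J^(999/1000)`,
all `p ∈ P0 ∪ P1` are odd primes `< z`) give `cp` from `Ap Bp` and `cm` from `Ap Bm + Am Bp - Ap Bp`.
Pointwise: for `n` odd (so `n ≠ 0`) and `ρ p = [p ∣ n]`: `∏_{p ∈ P0} (1-ρ p) * ∏_{p ∈ P1} (1 - ρ p)`
`= [Rough z n]` (for odd `n` the prime factors `< z` are exactly those in `P0 ∪ P1`), and with
`Am ≤ 1_A ≤ Ap`, `Bm ≤ 1_B ≤ Bp`, `1_A, 1_B ≥ 0` (S_pt, S_fl):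
`Ap Bm + Am Bp - Ap Bp ≤ Ap 1_B + 1_A Bp - Ap Bp = 1_A 1_B - (Ap - 1_A)(Bp - 1_B) ≤ 1_A 1_B ≤ Ap Bp`.
Main terms at `ρ = gd` (`0 ≤ gd p ≤ 1` on odd primes): `VV z = V0 * V1` (S_tel, last part),
`s = log D / log w ≥ 2.66`, `u s ≤ u 2.66`, `l s ≤ l 2.66`: `Bp ≤ 1.379 V1`, `0.64 V1 ≤ Bm ≤ Bp`,
`V0 ≤ Ap ≤ 1.001 V0`, `Am ≥ 0.999 V0`. Upper: `1.001 * 1.379 ≤ 1.39`. Lower:
`Ap Bm - (Ap - Am) Bp ≥ 0.64 V0 V1 - 0.002 * 1.379 V0 V1 ≥ 0.62 V0 V1`. `Icc 1 J`: `Q ≤ J`. -/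
def S_fin : Prop := S_pt → S_rep → S_tel → S_mer → S_ss → S_ls → S_fl → S_conv → S_comp → S_par → I_S

end Pool.Agent.CH.S
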